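import Pool.Agent.H7.GY.Stmts
import Pool.Agent.H67.GV.GC9

/-!
Row GCY of the board `gy11`: the pointwise inequality for the weights (after GC9 of helper67).
-/

set_option autoImplicit false

open Finset

namespace Pool.GY7

open Pool.Agent.H23.KT Pool.Agent.H46.KW Pool.KQ Pool.GT7 Pool.GU7 Pool.GV7

theorem GCY_desc (s N : ℕ) (h : s < N) (k : ℕ) (hk : k + 1 ≤ N) :
    s.descFactorial (k + 1) * (N + 1) ^ (k + 1) < (s + 1) ^ (k + 1) * N.descFactorial (k + 1) := by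
  induction k with
  | zero =>
    simp only [zero_add, Nat.descFactorial_one, pow_one]
    nlinarith
  | succ k ih =>
    have h1 := ih (by omega)
    have h2 : (s - (k + 1)) * (N + 1) ≤ (s + 1) * (N - (k + 1)) := by
      obtain ⟨n, rfl⟩ : ∃ n, N = n + (k + 1) := ⟨N - (k + 1), by omega⟩
      rw [Nat.add_sub_cancel]
      rcases Nat.lt_or_ge s (k + 1) with h3 | h3
      · rw [Nat.sub_eq_zero_of_le h3.le, zero_mul]
        exact Nat.zero_le _
      · obtain ⟨m, rfl⟩ : ∃ m, s = m + (k + 1) := ⟨s - (k + 1), by omega⟩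
        rw [Nat.add_sub_cancel]
        have h4 : m + 1 ≤ n := by omega
        nlinarith
    have h5 : 0 < (s + 1) * (N - (k + 1)) := Nat.mul_pos (Nat.succ_pos _) (by omega)
    have h6 := Nat.mul_lt_mul_of_lt_of_le h1 h2 h5
    rw [Nat.descFactorial_succ s (k + 1), Nat.descFactorial_succ N (k + 1), pow_succ (N + 1) (k + 1),
      pow_succ (s + 1) (k + 1)]
    calc (s - (k + 1)) * s.descFactorial (k + 1) * ((N + 1) ^ (k + 1) * (N + 1))
        = s.descFactorial (k + 1) * (N + 1) ^ (k + 1) * ((s - (k + 1)) * (N + 1)) := by ring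
      _ < (s + 1) ^ (k + 1) * N.descFactorial (k + 1) * ((s + 1) * (N - (k + 1))) := h6
      _ = _ := by ring

theorem GCY_choose (s N k : ℕ) (h : s < N) (hk : k + 1 ≤ N) :
    s.choose (k + 1) * (N + 1) ^ (k + 1) < (s + 1) ^ (k + 1) * N.choose (k + 1) := by
  have h1 := GCY_desc s N h k hk
  rw [Nat.descFactorial_eq_factorial_mul_choose, Nat.descFactorial_eq_factorial_mul_choose] at h1
  refine Nat.lt_of_mul_lt_mul_left (a := (k + 1).factorial) ?_
  calc (k + 1).factorial * (s.choose (k + 1) * (N + 1) ^ (k + 1))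
      = (k + 1).factorial * s.choose (k + 1) * (N + 1) ^ (k + 1) := by ring
    _ < (s + 1) ^ (k + 1) * ((k + 1).factorial * N.choose (k + 1)) := h1
    _ = _ := by ring

/-- for `B ≤ r - 1` -/
theorem GCY_small (p w r B : ℕ) (hP : PrY p w r) (hB : B + 1 ≤ r) :
    ((w : ℝ) + 3) * B.choose (w + 1) + 1 ≤ (p + 2).choose (w + 1) := by
  obtain ⟨w2, wp, rw', rp, R1, R3⟩ := hP
  have h1 : B.choose (w + 1) * (p + 3) ^ (w + 1) ≤ (r - 1).choose (w + 1) * (p + 3) ^ (w + 1) :=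
    Nat.mul_le_mul_right _ (Nat.choose_le_choose _ (by omega))
  have h2 := GCY_choose (r - 1) (p + 2) w (by omega) (by omega)
  have e1 : r - 1 + 1 = r := by omega
  rw [e1] at h2
  have h3 : (w + 3) * B.choose (w + 1) * (p + 3) ^ (w + 1) <
      (p + 2).choose (w + 1) * (p + 3) ^ (w + 1) := by
    calc (w + 3) * B.choose (w + 1) * (p + 3) ^ (w + 1)
        = (w + 3) * (B.choose (w + 1) * (p + 3) ^ (w + 1)) := by ring
      _ < (w + 3) * (r ^ (w + 1) * (p + 2).choose (w + 1)) :=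
        Nat.mul_lt_mul_of_pos_left (lt_of_le_of_lt h1 h2) (by omega)
      _ = (w + 3) * r ^ (w + 1) * (p + 2).choose (w + 1) := by ring
      _ ≤ (p + 3) ^ (w + 1) * (p + 2).choose (w + 1) := Nat.mul_le_mul_right _ R3
      _ = _ := by ring
  have h4 : (w + 3) * B.choose (w + 1) < (p + 2).choose (w + 1) := lt_of_mul_lt_mul_right h3 (Nat.zero_le _)
  have h5 : (w + 3) * B.choose (w + 1) + 1 ≤ (p + 2).choose (w + 1) := h4
  exact_mod_cast h5

theorem GCY_thm : GCYStmt := by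
  intro p w r hP
  have hP' := hP
  obtain ⟨w2, wp, rw', rp, R1, R3⟩ := hP'
  have h1 : (r : ℝ) ≤ p := by exact_mod_cast rp
  have h2 : (2 : ℝ) ≤ r := by
    have : 2 ≤ r := by omega
    exact_mod_cast this
  have hPR : 0 < (p : ℝ) + 3 - r := by linarith
  have hc : (1 : ℝ) ≤ (p + 2).choose (w + 1) := by
    exact_mod_cast Nat.choose_pos (by omega : w + 1 ≤ p + 2)
  refine ⟨⟨wp, by omega, rp⟩, ?_⟩
  · intro B hB
    have hP1 : 0 < (p : ℝ) + 3 := by linarith
    have hP2 : (1 : ℝ) ≤ ((p : ℝ) + 3) ^ 2 := by nlinarith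
    rcases Nat.lt_or_ge B r with h | h
    · rw [GC9_ww_lo p r B h]
      have a1 := GCY_small p w r B hP h
      have a2 : 1 / (4 * ((p : ℝ) + 3) ^ 2) ≤ 1 / 4 := by
        rw [div_le_div_iff₀ (by positivity) (by norm_num)]
        linarith
      linarith
    · obtain ⟨s, rfl⟩ : ∃ s, r = s + 1 := ⟨r - 1, by omega⟩
      rw [GC9_ww_hi p (s + 1) B rp h]
      set c : ℝ := ((p + 2).choose (w + 1) : ℝ) with hcdef
      have hq : 0 < (B : ℝ) + 1 := by positivity
      have h3 : ((s : ℝ) + 1) ≤ B := by exact_mod_cast h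
      have h5 : (B : ℝ) ≤ p + 1 := by exact_mod_cast hB
      have cv := GC9_convex (s + 1) (B + 1) (p + 3) (w + 1) (by omega) (by omega)
      have e1 : ((p + 3 : ℕ) : ℝ) * c = ((p + 3).choose (w + 1 + 1) : ℝ) * ((w + 1 + 1 : ℕ) : ℝ) := by
        rw [hcdef]
        exact_mod_cast Nat.add_one_mul_choose_eq (p + 2) (w + 1)
      have e2 : ((B + 1 : ℕ) : ℝ) * (B.choose (w + 1) : ℝ) =
          ((B + 1).choose (w + 1 + 1) : ℝ) * ((w + 1 + 1 : ℕ) : ℝ) := by
        exact_mod_cast Nat.add_one_mul_choose_eq B (w + 1)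
      have e3 : ((s + 1 : ℕ) : ℝ) * (s.choose (w + 1) : ℝ) =
          ((s + 1).choose (w + 1 + 1) : ℝ) * ((w + 1 + 1 : ℕ) : ℝ) := by
        exact_mod_cast Nat.add_one_mul_choose_eq s (w + 1)
      have a1 : ((w : ℝ) + 3) * s.choose (w + 1) ≤ c - 1 / 2 := by
        have := GCY_small p w (s + 1) s hP le_rfl
        linarith
      push_cast at cv e1 e2 e3 h1 h2 hPR ⊢
      set fq : ℝ := ((B + 1).choose (w + 1 + 1) : ℝ)
      set fr : ℝ := ((s + 1).choose (w + 1 + 1) : ℝ)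
      set fb : ℝ := ((p + 3).choose (w + 1 + 1) : ℝ)
      set cB : ℝ := (B.choose (w + 1) : ℝ)
      set cs : ℝ := (s.choose (w + 1) : ℝ)
      have hw0 : (0 : ℝ) ≤ w := Nat.cast_nonneg w
      -- multiply the convexity inequality by `(u + 1) u`
      have b1 : ((w : ℝ) + 3) * cB * ((B : ℝ) + 1) * ((p : ℝ) + 3 - (s + 1)) ≤
          ((p : ℝ) + 2 - B) * (s + 1) * (c - 1 / 2) +
            ((w : ℝ) + 3) * ((B : ℝ) - s) * (((p : ℝ) + 3) * c) := by
        have b2 := mul_le_mul_of_nonneg_left cv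
          (mul_nonneg (by linarith : (0 : ℝ) ≤ (w : ℝ) + 3) (by linarith : (0 : ℝ) ≤ (w : ℝ) + 1 + 1))
        have b3 : ((w : ℝ) + 3) * ((w : ℝ) + 1 + 1) * (((p : ℝ) + 3 - (s + 1)) * fq) =
            ((w : ℝ) + 3) * cB * ((B : ℝ) + 1) * ((p : ℝ) + 3 - (s + 1)) := by
          linear_combination (-(((w : ℝ) + 3) * ((p : ℝ) + 3 - (s + 1)))) * e2
        have b4 : ((w : ℝ) + 3) * ((w : ℝ) + 1 + 1) * (((p : ℝ) + 3 - ((B : ℝ) + 1)) * fr +
            ((B : ℝ) + 1 - (s + 1)) * fb) =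
            ((p : ℝ) + 2 - B) * (s + 1) * (((w : ℝ) + 3) * cs) +
              ((w : ℝ) + 3) * ((B : ℝ) - s) * (((p : ℝ) + 3) * c) := by
          linear_combination (-(((w : ℝ) + 3) * ((p : ℝ) + 2 - B))) * e3 -
            ((w : ℝ) + 3) * ((B : ℝ) - s) * e1
        rw [b3, b4] at b2
        have hs0 : (0 : ℝ) ≤ s := Nat.cast_nonneg s
        have b5 := mul_le_mul_of_nonneg_left a1
          (mul_nonneg (by linarith : (0 : ℝ) ≤ (p : ℝ) + 2 - B) (by linarith : (0 : ℝ) ≤ (s : ℝ) + 1))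
        linarith
      have b6 : ((p : ℝ) + 3 - (s + 1)) * ((B : ℝ) + 1) / (4 * ((p : ℝ) + 3) ^ 2) ≤
          ((p : ℝ) + 2 - B) * (s + 1) * (1 / 2) := by
        have hs0 : (0 : ℝ) ≤ s := Nat.cast_nonneg s
        have c1 : ((p : ℝ) + 3 - (s + 1)) * ((B : ℝ) + 1) ≤ ((p : ℝ) + 3) ^ 2 := by
          rw [sq]
          exact mul_le_mul (by linarith) (by linarith) hq.le hP1.le
        have c2 : ((p : ℝ) + 3 - (s + 1)) * ((B : ℝ) + 1) / (4 * ((p : ℝ) + 3) ^ 2) ≤ 1 / 4 := by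
          rw [div_le_div_iff₀ (by positivity) (by norm_num)]
          linarith
        have c3 : (1 : ℝ) ≤ ((p : ℝ) + 2 - B) * (s + 1) := by
          have := mul_le_mul (by linarith : (1 : ℝ) ≤ (p : ℝ) + 2 - B)
            (by linarith : (1 : ℝ) ≤ (s : ℝ) + 1) (by norm_num) (by linarith)
          linarith
        linarith
      have hden : 0 < ((p : ℝ) + 3 - (s + 1)) * ((B : ℝ) + 1) := mul_pos hPR hq
      have key : ((w : ℝ) + 3) * cB * (((p : ℝ) + 3 - (s + 1)) * ((B : ℝ) + 1)) +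
          ((p : ℝ) + 3 - (s + 1)) * ((B : ℝ) + 1) / (4 * ((p : ℝ) + 3) ^ 2) ≤
          c * (((p : ℝ) + 3 - (s + 1)) * ((B : ℝ) + 1) +
            ((w : ℝ) + 2) * (((p : ℝ) + 3) * ((B : ℝ) + 1 - (s + 1)))) := by
        have e4 : c * (((p : ℝ) + 3 - (s + 1)) * ((B : ℝ) + 1) +
            ((w : ℝ) + 2) * (((p : ℝ) + 3) * ((B : ℝ) + 1 - (s + 1)))) =
            ((p : ℝ) + 2 - B) * (s + 1) * c +
              ((w : ℝ) + 3) * ((B : ℝ) - s) * (((p : ℝ) + 3) * c) := by ring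
        rw [e4]
        linarith
      have e5 : c * (1 + ((w : ℝ) + 2) * (((p : ℝ) + 3) * ((B : ℝ) + 1 - (s + 1)) /
          (((p : ℝ) + 3 - (s + 1)) * ((B : ℝ) + 1)))) =
          c * (((p : ℝ) + 3 - (s + 1)) * ((B : ℝ) + 1) +
            ((w : ℝ) + 2) * (((p : ℝ) + 3) * ((B : ℝ) + 1 - (s + 1)))) /
          (((p : ℝ) + 3 - (s + 1)) * ((B : ℝ) + 1)) := by
        field_simp
      rw [e5, le_div_iff₀ hden]
      refine le_trans (le_of_eq ?_) key
      ring

end Pool.GY7
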